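import Mathlib
import Pool.Agent.Helper46K9.BP.Final

/-!
# The `3`-neighbour bootstrap percolation number of `P_m ⊠ P_n` (MP_87c242_co, Q1)

`m₃(m, n)` is `max m n` if `min m n = 1`, it is `⌊max m n / 2⌋ + 2` if `min m n = 2`, and it is `3`
if `min m n ≥ 3`.

Idea. Three cells in a row of a board with at least three rows and three columns infect everything
(in a king's graph a flat front moves on by itself), and fewer than three cells infect nothing new.
In two rows, the potential `2 (number of nonempty columns) + (number of neighbouring pairs of a full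
and an empty column) - (number of neighbouring pairs of full columns)` does not increase when a column
with a newly infected cell is filled; it is at most twice the number of cells of the initial set, and
at the end it is `n + 3`.
-/

set_option autoImplicit false

namespace Pool.Agent.Results.MP_87c242_co.StrongGrid

/-- Adjacency of the cells of the strong product `P_m ⊠ P_n` (the `m × n` king's graph). -/
def Adj {m n : ℕ} (u v : Fin m × Fin n) : Prop :=
  u ≠ v ∧ |(u.1 : ℤ) - (v.1 : ℤ)| ≤ 1 ∧ |(u.2 : ℤ) - (v.2 : ℤ)| ≤ 1

/-- One round of the `3`-neighbour process: the cells with at least three infected neighbours become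
infected. -/
def round {m n : ℕ} (A : Set (Fin m × Fin n)) : Set (Fin m × Fin n) :=
  A ∪ {v | 3 ≤ {u | u ∈ A ∧ Adj u v}.ncard}

/-- Starting from `A`, every cell is infected sooner or later. -/
def FullyInfects {m n : ℕ} (A : Set (Fin m × Fin n)) : Prop :=
  (⋃ t : ℕ, round^[t] A) = Set.univ

/-- `m₃(m, n)`: the minimum size of a fully infecting set. -/
noncomputable def m3 (m n : ℕ) : ℕ :=
  sInf {k | ∃ A : Set (Fin m × Fin n), A.ncard = k ∧ FullyInfects A}

/-- For all `m, n ≥ 1`: `m₃(m, n) = max m n` if `m = 1` or `n = 1`; otherwise
`m₃(m, n) = ⌊max m n / 2⌋ + 2` if `m = 2` or `n = 2`; otherwise `m₃(m, n) = 3`. -/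
theorem result (m n : ℕ) (hm : 1 ≤ m) (hn : 1 ≤ n) :
    m3 m n = if m = 1 ∨ n = 1 then max m n else if m = 2 ∨ n = 2 then max m n / 2 + 2 else 3 := by
  have e : m3 m n = Helper46K9.BP.m3 m n := rfl
  rw [e]
  split_ifs with h1 h2
  · rcases h1 with h1 | h1
    · subst h1
      rw [Helper46K9.BP.m3_one]
      omega
    · subst h1
      rw [← Helper46K9.BP.m3_swap, Helper46K9.BP.m3_one]
      omega
  · rcases h2 with h2 | h2
    · subst h2
      rw [Helper46K9.BP.m3_two hn]
      omega
    · subst h2
      rw [← Helper46K9.BP.m3_swap, Helper46K9.BP.m3_two hm]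
      omega
  · exact Helper46K9.BP.m3_three (by omega) (by omega)

end Pool.Agent.Results.MP_87c242_co.StrongGrid
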